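import Pool.Agent.PRT.StmtsD

/-!
# Squad PRT, row KNB: the Knothe map is equivariant
-/

set_option autoImplicit false

namespace Pool.Agent.PRT.H62

open Set MeasureTheory
open scoped ContDiff

/-- the primitive with mean zero displacement -/
noncomputable def K (f : ℝ → ℝ) (x : ℝ) : ℝ :=
  (∫ s in (0 : ℝ)..x, f s) - (∫ r in (0 : ℝ)..1, ∫ s in (0 : ℝ)..r, f s) + 1 / 2

theorem K_shift (f : ℝ → ℝ) (hf : Continuous f) (hp : Function.Periodic f 1)
    (h1 : ∫ t in (0 : ℝ)..1, f t = 1) (a x : ℝ) :
    K (fun x => f (x + a)) x = K f (x + a) - a := by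
  have hii : ∀ u v : ℝ, IntervalIntegrable f volume u v := fun u v => hf.intervalIntegrable u v
  obtain ⟨F, hF⟩ : ∃ F : ℝ → ℝ, ∀ x, F x = ∫ s in (0 : ℝ)..x, f s := ⟨_, fun _ => rfl⟩
  have hFf : F = fun x => ∫ s in (0 : ℝ)..x, f s := funext hF
  have hFc : Continuous F := by
    rw [hFf]
    exact intervalIntegral.continuous_primitive hii 0
  have e1 : ∀ x, ∫ s in (0 : ℝ)..x, f (s + a) = F (x + a) - F a := by
    intro x
    rw [intervalIntegral.integral_comp_add_right (fun s => f s) a, zero_add, hF, hF,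
      intervalIntegral.integral_interval_sub_left (hii _ _) (hii _ _)]
  have e2 : ∀ r, F (r + 1) = F r + 1 := by
    intro r
    have h2 := intervalIntegral.integral_add_adjacent_intervals (hii 0 r) (hii r (r + 1))
    rw [hF, hF, ← h2, hp.intervalIntegral_add_eq r 0, zero_add, h1]
  have hP : Function.Periodic (fun r => F r - r) 1 := by
    intro r
    simp only
    rw [e2]
    ring
  have hPc : Continuous (fun r => F r - r) := hFc.sub continuous_id
  have e3 : ∀ u : ℝ, ∫ r in u..(u + 1), F r = (∫ r in (0 : ℝ)..1, (F r - r)) + (u + 1 / 2) := by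
    intro u
    have h2 : ∫ r in u..(u + 1), F r = ∫ r in u..(u + 1), ((F r - r) + r) := by
      refine intervalIntegral.integral_congr fun r _ => ?_
      ring
    have h3 : IntervalIntegrable (fun r : ℝ => r) volume u (u + 1) :=
      continuous_id.intervalIntegrable _ _
    rw [h2, intervalIntegral.integral_add (hPc.intervalIntegrable _ _) h3,
      hP.intervalIntegral_add_eq u 0, zero_add]
    congr 1
    rw [integral_id]
    ring
  have e4 : ∫ r in (0 : ℝ)..1, F (r + a) = (∫ r in (0 : ℝ)..1, F r) + a := by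
    have h2 := e3 a
    have h3 := e3 0
    rw [zero_add] at h3
    rw [intervalIntegral.integral_comp_add_right (fun s => F s) a, zero_add, add_comm 1 a, h2, h3]
    ring
  unfold K
  rw [e1 x]
  have e5 : ∫ r in (0 : ℝ)..1, ∫ s in (0 : ℝ)..r, f (s + a) =
      (∫ r in (0 : ℝ)..1, F (r + a)) - F a := by
    have h2 : ∫ r in (0 : ℝ)..1, ∫ s in (0 : ℝ)..r, f (s + a) =
        ∫ r in (0 : ℝ)..1, (F (r + a) - F a) :=
      intervalIntegral.integral_congr fun r _ => e1 r
    have h3 : IntervalIntegrable (fun r : ℝ => F (r + a)) volume 0 1 :=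
      (hFc.comp (continuous_id.add continuous_const)).intervalIntegrable _ _
    have h4 : IntervalIntegrable (fun _ : ℝ => F a) volume 0 1 :=
      continuous_const.intervalIntegrable _ _
    rw [h2, intervalIntegral.integral_sub h3 h4, intervalIntegral.integral_const]
    simp
  have e6 : ∫ r in (0 : ℝ)..1, ∫ s in (0 : ℝ)..r, f s = ∫ r in (0 : ℝ)..1, F r :=
    intervalIntegral.integral_congr fun r _ => (hF r).symm
  rw [e5, e6, e4, ← hF (x + a)]
  ring

theorem knb : KnbStmt := by
  intro ρ w hρ z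
  have hc : Continuous ρ := hρ.sm.continuous
  have hp1 : ∀ x t : ℝ, ρ (x + 1, t) = ρ (x, t) := by
    intro x t
    have h := hρ.per 1 0 (x, t)
    simpa [iv] using h
  have hp2 : ∀ x t : ℝ, ρ (x, t + 1) = ρ (x, t) := by
    intro x t
    have h := hρ.per 0 1 (x, t)
    simpa [iv] using h
  have hct : ∀ x : ℝ, Continuous (fun t : ℝ => ρ (x, t)) := fun x =>
    hc.comp (continuous_const.prodMk continuous_id)
  have hav : ∀ x, av (fun z => ρ (z + w)) x = av ρ (x + w.1) := by
    intro x
    unfold av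
    have h1 : ∫ t in (0 : ℝ)..1, ρ ((x, t) + w) = ∫ t in (0 : ℝ)..1, ρ (x + w.1, t + w.2) :=
      intervalIntegral.integral_congr fun t _ => rfl
    rw [h1, intervalIntegral.integral_comp_add_right (fun t => ρ (x + w.1, t)) w.2, zero_add,
      add_comm 1 w.2]
    have hp : Function.Periodic (fun t => ρ (x + w.1, t)) 1 := fun t => hp2 _ _
    rw [hp.intervalIntegral_add_eq w.2 0, zero_add]
  have havc : Continuous (av ρ) := by
    have h := intervalIntegral.continuous_parametric_intervalIntegral_of_continuous'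
      (f := fun x t : ℝ => ρ (x, t)) (μ := volume) (a₀ := (0 : ℝ))
      (by exact hc) (1 : ℝ)
    exact h
  have havp : Function.Periodic (av ρ) 1 := by
    intro x
    unfold av
    exact intervalIntegral.integral_congr fun t _ => hp1 x t
  have hav1 : ∫ x in (0 : ℝ)..1, av ρ x = 1 := by
    have h := hρ.one
    have hint : IntegrableOn ρ (Icc (0 : ℝ) 1 ×ˢ Icc (0 : ℝ) 1)
        ((volume : Measure ℝ).prod (volume : Measure ℝ)) := by
      have := hc.continuousOn.integrableOn_compact (μ := (volume : Measure E))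
        ((isCompact_Icc (a := (0 : ℝ)) (b := 1)).prod (isCompact_Icc (a := (0 : ℝ)) (b := 1)))
      exact this
    have h2 := setIntegral_prod (μ := (volume : Measure ℝ)) (ν := (volume : Measure ℝ)) ρ hint
    have h3 : ∫ z in Q, ρ z = ∫ x in Icc (0 : ℝ) 1, ∫ y in Icc (0 : ℝ) 1, ρ (x, y) := h2
    rw [h3] at h
    rw [intervalIntegral.integral_of_le (zero_le_one : (0 : ℝ) ≤ 1),
      ← integral_Icc_eq_integral_Ioc]
    refine Eq.trans ?_ h
    refine setIntegral_congr_fun measurableSet_Icc fun x _ => ?_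
    simp only [av]
    rw [intervalIntegral.integral_of_le (zero_le_one : (0 : ℝ) ≤ 1),
      ← integral_Icc_eq_integral_Ioc]
  have havpos : ∀ x, av ρ x ≠ 0 := by
    intro x
    have h1 : (1 / 2 : ℝ) ≤ av ρ x := by
      unfold av
      have h2 : ∫ _ in (0 : ℝ)..1, (1 / 2 : ℝ) ≤ ∫ t in (0 : ℝ)..1, ρ (x, t) :=
        intervalIntegral.integral_mono_on zero_le_one (continuous_const.intervalIntegrable _ _)
          ((hct x).intervalIntegrable _ _) fun t _ => hρ.lb (x, t)
      rw [intervalIntegral.integral_const] at h2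
      simpa using h2
    intro h
    rw [h] at h1
    norm_num at h1
  have hk1 : ∀ (σ : E → ℝ) (x : ℝ), k1 σ x = K (av σ) x := fun _ _ => rfl
  have hk2 : ∀ (σ : E → ℝ) (z : E), k2 σ z = K (fun t => σ (z.1, t) / av σ z.1) z.2 := by
    intro σ z
    unfold k2 K
    have h1 : ∀ r : ℝ, (∫ t in (0 : ℝ)..r, σ (z.1, t)) / av σ z.1 =
        ∫ t in (0 : ℝ)..r, σ (z.1, t) / av σ z.1 := by
      intro r
      rw [intervalIntegral.integral_div]
    rw [h1 z.2]
    congr 2
    exact intervalIntegral.integral_congr fun r _ => h1 r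
  have c1 : k1 (fun z => ρ (z + w)) z.1 = k1 ρ (z.1 + w.1) - w.1 := by
    rw [hk1, hk1]
    have h1 : av (fun z => ρ (z + w)) = fun x => av ρ (x + w.1) := funext hav
    rw [h1]
    exact K_shift _ havc havp hav1 w.1 z.1
  have c2 : k2 (fun z => ρ (z + w)) z = k2 ρ (z + w) - w.2 := by
    rw [hk2, hk2]
    have h1 : (fun t => ρ ((z.1, t) + w) / av (fun z => ρ (z + w)) z.1) =
        fun t => (fun s => ρ ((z + w).1, s) / av ρ (z + w).1) (t + w.2) := by
      funext t
      rw [hav]
      rfl
    rw [h1]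
    refine K_shift (fun s => ρ ((z + w).1, s) / av ρ (z + w).1) ?_ ?_ ?_ w.2 z.2
    · exact (hct _).div_const _
    · intro t
      simp only
      rw [hp2]
    · rw [intervalIntegral.integral_div]
      exact div_self (havpos (z + w).1)
  unfold kn
  rw [c1, c2]
  rfl

end Pool.Agent.PRT.H62
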